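import Mathlib

/-! The process of adding edges while keeping the matching number equal to the cover number. -/

open Finset

namespace Pool.Agent.V11328.F7

variable {V : Type*} [Fintype V] [DecidableEq V]

/-- `M` is a matching of `G`: a set of edges of `G`, no two of which share a vertex. -/
def IsMat (G : SimpleGraph V) (M : Finset (Sym2 V)) : Prop :=
  (∀ e ∈ M, e ∈ G.edgeSet) ∧ ∀ e ∈ M, ∀ f ∈ M, ∀ v, v ∈ e → v ∈ f → e = f

/-- `C` is a vertex cover of `G`. -/
def IsCov (G : SimpleGraph V) (C : Finset V) : Prop :=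
  ∀ x y, G.Adj x y → x ∈ C ∨ y ∈ C

/-- Matching number. -/
noncomputable def nu (G : SimpleGraph V) : ℕ := sSup {m | ∃ M, IsMat G M ∧ #M = m}

/-- Vertex cover number. -/
noncomputable def tau (G : SimpleGraph V) : ℕ := sInf {m | ∃ C, IsCov G C ∧ #C = m}

/-- Vertices covered by a set of edges. -/
def cov (M : Finset (Sym2 V)) : Finset V := univ.filter (fun v => ∃ e ∈ M, v ∈ e)

lemma mem_cov {M : Finset (Sym2 V)} {v : V} : v ∈ cov M ↔ ∃ e ∈ M, v ∈ e := by
  simp [cov]

omit [DecidableEq V] in
lemma nu_bdd (G : SimpleGraph V) : BddAbove {m | ∃ M, IsMat G M ∧ #M = m} := by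
  refine ⟨#(univ : Finset (Sym2 V)), ?_⟩
  rintro m ⟨M, _, rfl⟩
  exact card_le_card (subset_univ _)

omit [DecidableEq V] in
lemma le_nu {G : SimpleGraph V} {M : Finset (Sym2 V)} (h : IsMat G M) : #M ≤ nu G :=
  le_csSup (nu_bdd G) ⟨M, h, rfl⟩

omit [DecidableEq V] in
lemma nu_spec (G : SimpleGraph V) : ∃ M, IsMat G M ∧ #M = nu G := by
  have hne : {m | ∃ M, IsMat G M ∧ #M = m}.Nonempty := ⟨0, ∅, ⟨by simp, by simp⟩, rfl⟩
  exact Nat.sSup_mem hne (nu_bdd G)

omit [Fintype V] [DecidableEq V] in
lemma tau_le {G : SimpleGraph V} {C : Finset V} (h : IsCov G C) : tau G ≤ #C :=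
  Nat.sInf_le ⟨C, h, rfl⟩

omit [DecidableEq V] in
lemma tau_spec (G : SimpleGraph V) : ∃ C, IsCov G C ∧ #C = tau G := by
  have hne : {m | ∃ C, IsCov G C ∧ #C = m}.Nonempty :=
    ⟨_, univ, fun _ _ _ => Or.inl (mem_univ _), rfl⟩
  exact Nat.sInf_mem hne

/-- A matching injects into a cover, and more precisely into the covered part of the cover. -/
lemma mat_le_cov {G : SimpleGraph V} {M : Finset (Sym2 V)} {C : Finset V} (hM : IsMat G M)
    (hC : IsCov G C) : #M ≤ #(C.filter (fun v => v ∈ cov M)) := by
  have hch : ∀ e ∈ M, ∃ v ∈ C, v ∈ e := by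
    intro e he
    have := hM.1 e he
    induction e with
    | h x y =>
      rw [SimpleGraph.mem_edgeSet] at this
      rcases hC x y this with h | h
      · exact ⟨x, h, by simp⟩
      · exact ⟨y, h, by simp⟩
  rcases M.eq_empty_or_nonempty with rfl | ⟨e0, _⟩
  · simp
  have : Nonempty V := ⟨e0.out.1⟩
  choose! g hg using hch
  refine Finset.card_le_card_of_injOn g ?_ ?_
  · intro e he
    have he' : e ∈ M := he
    simp only [coe_filter, Set.mem_ofPred_eq]
    exact ⟨(hg e he').1, mem_cov.2 ⟨e, he', (hg e he').2⟩⟩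
  · intro e he f hf hef
    exact hM.2 e he f hf (g e) (hg e he).2 (hef ▸ (hg f hf).2)

lemma nu_le_tau (G : SimpleGraph V) : nu G ≤ tau G := by
  obtain ⟨M, hM, hMc⟩ := nu_spec G
  obtain ⟨C, hC, hCc⟩ := tau_spec G
  rw [← hMc, ← hCc]
  exact (mat_le_cov hM hC).trans (card_filter_le _ _)

/-- Pairwise disjoint set of non-loops. -/
def IsM (M : Finset (Sym2 V)) : Prop :=
  (∀ e ∈ M, ¬ e.IsDiag) ∧ ∀ e ∈ M, ∀ f ∈ M, ∀ v, v ∈ e → v ∈ f → e = f

omit [Fintype V] [DecidableEq V] in
lemma IsMat.isM {G : SimpleGraph V} {M : Finset (Sym2 V)} (h : IsMat G M) : IsM M :=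
  ⟨fun e he => G.not_isDiag_of_mem_edgeSet (h.1 e he), h.2⟩

lemma card_cov {M : Finset (Sym2 V)} (h : IsM M) : #(cov M) = 2 * #M := by
  have h1 : cov M = M.biUnion (fun e => univ.filter (fun v => v ∈ e)) := by
    ext v
    simp [mem_cov]
  rw [h1, card_biUnion]
  · have h2 : ∀ e ∈ M, #(univ.filter (fun v => v ∈ e)) = 2 := by
      intro e he
      have := h.1 e he
      induction e with
      | h x y =>
        rw [Sym2.mk_isDiag_iff] at this
        have h3 : univ.filter (fun v => v ∈ s(x, y)) = {x, y} := by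
          ext v
          simp
        rw [h3, card_pair this]
    rw [sum_congr rfl h2, sum_const, smul_eq_mul, mul_comm]
  · intro e he f hf hef
    simp only [Function.onFun]
    rw [Finset.disjoint_left]
    intro v hv hv'
    simp only [mem_filter, mem_univ, true_and] at hv hv'
    exact hef (h.2 e he f hf v hv hv')

/-- The exchange property of matchings. -/
theorem exchange : ∀ (n : ℕ) (M M' : Finset (Sym2 V)), #(M' \ M) = n → IsM M → IsM M' →
    #M < #M' → ∃ N ⊆ M ∪ M', IsM N ∧ #N = #M + 1 ∧ cov M ⊆ cov N := by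
  intro n
  induction n using Nat.strong_induction_on with
  | _ n ih =>
  intro M M' hn hM hM' hlt
  have hc : #(cov M) < #(cov M') := by
    rw [card_cov hM, card_cov hM']; omega
  obtain ⟨p, hp', hp⟩ := Finset.exists_mem_notMem_of_card_lt_card hc
  obtain ⟨e', he', hpe'⟩ := mem_cov.1 hp'
  obtain ⟨p', rfl⟩ := Sym2.mem_iff_exists.1 hpe'
  have hpp : p ≠ p' := by
    have := hM'.1 _ he'
    rwa [Sym2.mk_isDiag_iff] at this
  have hpM : ∀ g ∈ M, p ∉ g := fun g hg hpg => hp (mem_cov.2 ⟨g, hg, hpg⟩)
  have he'M : s(p, p') ∉ M := fun h => hpM _ h (by simp)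
  by_cases hp'c : p' ∈ cov M
  · obtain ⟨e, he, hpe⟩ := mem_cov.1 hp'c
    obtain ⟨q, rfl⟩ := Sym2.mem_iff_exists.1 hpe
    have hee : s(p', q) ≠ s(p, p') := by
      intro h
      exact he'M (h ▸ he)
    have heM' : s(p', q) ∉ M' := by
      intro h
      exact hee (hM'.2 _ h _ he' p' (by simp) (by simp))
    have hp'M : ∀ g ∈ M, p' ∈ g → g = s(p', q) := fun g hg hpg => hM.2 g hg _ he p' hpg (by simp)
    -- the modified matching
    have hM1 : IsM (insert s(p, p') (M.erase s(p', q))) := by
      constructor
      · intro g hg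
        rw [mem_insert] at hg
        rcases hg with rfl | hg
        · exact hM'.1 _ he'
        · exact hM.1 _ (mem_of_mem_erase hg)
      · have hcross : ∀ g ∈ M.erase s(p', q), ∀ v, v ∈ g → v ∈ s(p, p') → False := by
          intro g hg v hvg hv
          rw [Sym2.mem_iff] at hv
          rcases hv with rfl | rfl
          · exact hpM g (mem_of_mem_erase hg) hvg
          · exact (ne_of_mem_erase hg) (hp'M g (mem_of_mem_erase hg) hvg)
        intro g hg f hf v hvg hvf
        rw [mem_insert] at hg hf
        rcases hg with rfl | hg <;> rcases hf with rfl | hf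
        · rfl
        · exact (hcross f hf v hvf hvg).elim
        · exact (hcross g hg v hvg hvf).elim
        · exact hM.2 g (mem_of_mem_erase hg) f (mem_of_mem_erase hf) v hvg hvf
    have hM1c : #(insert s(p, p') (M.erase s(p', q))) = #M := by
      rw [card_insert_of_notMem (fun h => he'M (mem_of_mem_erase h)), card_erase_of_mem he]
      have : 0 < #M := card_pos.2 ⟨_, he⟩
      omega
    have hless : #(M' \ insert s(p, p') (M.erase s(p', q))) < n := by
      rw [← hn]
      apply card_lt_card
      rw [Finset.ssubset_iff_of_subset]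
      · exact ⟨s(p, p'), by simp [he', he'M], by simp⟩
      · intro g hg
        simp only [mem_sdiff, mem_insert, mem_erase, not_or, not_and] at hg ⊢
        refine ⟨hg.1, fun hgM => hg.2.2 ?_ hgM⟩
        rintro rfl
        exact heM' hg.1
    obtain ⟨N, hNs, hN, hNc, hNcov⟩ := ih _ hless _ M' rfl hM1 hM' (by rw [hM1c]; exact hlt)
    rw [hM1c] at hNc
    have hNs' : N ⊆ M ∪ M' := by
      intro g hg
      have := hNs hg
      simp only [mem_union, mem_insert, mem_erase] at this ⊢
      rcases this with (rfl | h) | h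
      · exact Or.inr he'
      · exact Or.inl h.2
      · exact Or.inr h
    have hcovM : ∀ v ∈ cov M, v ≠ q → v ∈ cov N := by
      intro v hv hvq
      obtain ⟨g, hg, hvg⟩ := mem_cov.1 hv
      apply hNcov
      by_cases hgE : g = s(p', q)
      · rw [hgE, Sym2.mem_iff] at hvg
        rcases hvg with rfl | rfl
        · exact mem_cov.2 ⟨s(p, v), by simp, by simp⟩
        · exact absurd rfl hvq
      · exact mem_cov.2 ⟨g, by simp [hg, hgE], hvg⟩
    by_cases hq : q ∈ cov N
    · refine ⟨N, hNs', hN, hNc, ?_⟩
      intro v hv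
      by_cases hvq : v = q
      · rw [hvq]; exact hq
      · exact hcovM v hv hvq
    · -- put `e` back
      have hpN : p ∈ cov N := hNcov (mem_cov.2 ⟨s(p, p'), by simp, by simp⟩)
      obtain ⟨g, hg, hpg⟩ := mem_cov.1 hpN
      have hgE : g = s(p, p') := by
        have := hNs hg
        simp only [mem_union, mem_insert, mem_erase] at this
        rcases this with (h | h) | h
        · exact h
        · exact absurd hpg (hpM g h.2)
        · exact hM'.2 g h _ he' p hpg (by simp)
      subst hgE
      have hqN : ∀ g ∈ N, q ∉ g := fun g hg hqg => hq (mem_cov.2 ⟨g, hg, hqg⟩)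
      have hcross : ∀ g ∈ N.erase s(p, p'), ∀ v, v ∈ g → v ∈ s(p', q) → False := by
        intro g hg' v hvg hv
        rw [Sym2.mem_iff] at hv
        rcases hv with rfl | rfl
        · exact (ne_of_mem_erase hg') (hN.2 g (mem_of_mem_erase hg') _ hg v hvg (by simp))
        · exact hqN g (mem_of_mem_erase hg') hvg
      refine ⟨insert s(p', q) (N.erase s(p, p')), ?_, ?_, ?_, ?_⟩
      · intro f hf
        rw [mem_insert] at hf
        rcases hf with rfl | hf
        · exact mem_union_left _ he
        · exact hNs' (mem_of_mem_erase hf)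
      · constructor
        · intro f hf
          rw [mem_insert] at hf
          rcases hf with rfl | hf
          · exact hM.1 _ he
          · exact hN.1 _ (mem_of_mem_erase hf)
        · intro g hg' f hf v hvg hvf
          rw [mem_insert] at hg' hf
          rcases hg' with rfl | hg' <;> rcases hf with rfl | hf
          · rfl
          · exact (hcross f hf v hvf hvg).elim
          · exact (hcross g hg' v hvg hvf).elim
          · exact hN.2 g (mem_of_mem_erase hg') f (mem_of_mem_erase hf) v hvg hvf
      · rw [card_insert_of_notMem, card_erase_of_mem hg]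
        · omega
        · intro h
          exact hqN _ (mem_of_mem_erase h) (by simp)
      · intro v hv
        by_cases hvq : v = q
        · exact mem_cov.2 ⟨s(p', q), by simp, by simp [hvq]⟩
        · obtain ⟨f, hf, hvf⟩ := mem_cov.1 (hcovM v hv hvq)
          by_cases hfe : f = s(p, p')
          · rw [hfe, Sym2.mem_iff] at hvf
            rcases hvf with rfl | rfl
            · exact absurd hv hp
            · exact mem_cov.2 ⟨s(v, q), by simp, by simp⟩
          · exact mem_cov.2 ⟨f, by simp [hf, hfe], hvf⟩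
  · -- add the edge
    have hp'M : ∀ g ∈ M, p' ∉ g := fun g hg hpg => hp'c (mem_cov.2 ⟨g, hg, hpg⟩)
    have hcross : ∀ g ∈ M, ∀ v, v ∈ g → v ∈ s(p, p') → False := by
      intro g hg v hvg hv
      rw [Sym2.mem_iff] at hv
      rcases hv with rfl | rfl
      · exact hpM g hg hvg
      · exact hp'M g hg hvg
    refine ⟨insert s(p, p') M, ?_, ?_, ?_, ?_⟩
    · intro g hg
      rw [mem_insert] at hg
      rcases hg with rfl | hg
      · exact mem_union_right _ he'
      · exact mem_union_left _ hg
    · constructor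
      · intro g hg
        rw [mem_insert] at hg
        rcases hg with rfl | hg
        · exact hM'.1 _ he'
        · exact hM.1 _ hg
      · intro g hg f hf v hvg hvf
        rw [mem_insert] at hg hf
        rcases hg with rfl | hg <;> rcases hf with rfl | hf
        · rfl
        · exact (hcross f hf v hvf hvg).elim
        · exact (hcross g hg v hvg hvf).elim
        · exact hM.2 g hg f hf v hvg hvf
    · rw [card_insert_of_notMem he'M]
    · intro v hv
      obtain ⟨g, hg, hvg⟩ := mem_cov.1 hv
      exact mem_cov.2 ⟨g, mem_insert_of_mem hg, hvg⟩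

end Pool.Agent.V11328.F7
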